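import Pool.Agent.X43.GA.D
import Pool.Agent.Results.MP_65fbb9_lc.PolynomialExponents

/-! Sets below a set of Gamma-value `1/2` agree with some computable set with density `1/2`. -/

set_option autoImplicit false

namespace Pool.Agent.Results.MP_f1effe_lc.DensityHalf

open Filter Topology

open Classical in
/-- The characteristic function of a set of numbers. -/
noncomputable def chi (A : Set ℕ) (n : ℕ) : ℕ := if n ∈ A then 1 else 0

/-- Turing reducibility `Y ≤_T X` of sets. -/
def TLe (Y X : Set ℕ) : Prop := TuringReducible (chi Y : ℕ →. ℕ) (chi X : ℕ →. ℕ)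

/-- `Y ↔ A`: the set of the arguments on which `Y` and `A` agree. -/
def agreeSet (Y A : Set ℕ) : Set ℕ := {n | n ∈ Y ↔ n ∈ A}

/-- The lower density of a set of numbers. -/
noncomputable def lowerDensity (S : Set ℕ) : ℝ :=
  liminf (fun n : ℕ => ((S ∩ Set.Iio n).ncard : ℝ) / n) atTop

/-- The coarse computability bound: the supremum of the lower densities of `Y ↔ C` for the
computable sets `C`. -/
noncomputable def gamma (Y : Set ℕ) : ℝ :=
  sSup {d | ∃ C : Set ℕ, ComputablePred (fun n => n ∈ C) ∧ d = lowerDensity (agreeSet Y C)}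

/-- The Gamma-value: the infimum of `gamma Y` for `Y ≤_T X`. -/
noncomputable def Gamma (X : Set ℕ) : ℝ := sInf {d | ∃ Y : Set ℕ, TLe Y X ∧ d = gamma Y}

theorem ncard_eq {S : Set ℕ} (p : ℕ → Prop) [DecidablePred p] (h : ∀ i, i ∈ S ↔ p i) (n : ℕ) :
    (S ∩ Set.Iio n).ncard = ((Finset.range n).filter p).card := by
  rw [← Set.ncard_coe_finset]
  congr 1
  ext i
  simp only [Set.mem_inter_iff, Set.mem_Iio, Finset.coe_filter, Finset.mem_range,
    Set.mem_ofPred_eq]
  rw [h i, and_comm]

theorem quot_nonneg (S : Set ℕ) (n : ℕ) : 0 ≤ ((S ∩ Set.Iio n).ncard : ℝ) / n := by positivity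

theorem quot_le_one (S : Set ℕ) (n : ℕ) : ((S ∩ Set.Iio n).ncard : ℝ) / n ≤ 1 := by
  classical
  refine div_le_one_of_le₀ ?_ (Nat.cast_nonneg n)
  rw [ncard_eq (fun i => i ∈ S) (fun _ => Iff.rfl)]
  have : ((Finset.range n).filter fun i => i ∈ S).card ≤ n :=
    (Finset.card_filter_le _ _).trans (Finset.card_range n).le
  exact_mod_cast this

theorem lowerDensity_nonneg (S : Set ℕ) : 0 ≤ lowerDensity S := by
  refine le_liminf_of_le ?_ (Eventually.of_forall fun n => quot_nonneg S n)
  exact IsBoundedUnder.isCoboundedUnder_ge ⟨1, eventually_map.2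
    (Eventually.of_forall fun n => quot_le_one S n)⟩

theorem lowerDensity_le_one (S : Set ℕ) : lowerDensity S ≤ 1 := by
  refine liminf_le_of_frequently_le ?_ ⟨0, eventually_map.2
    (Eventually.of_forall fun n => quot_nonneg S n)⟩
  exact (Eventually.of_forall fun n => quot_le_one S n).frequently

theorem gamma_nonneg (Y : Set ℕ) : 0 ≤ gamma Y := by
  refine le_trans (lowerDensity_nonneg (agreeSet Y ∅)) (le_csSup ⟨1, ?_⟩ ⟨∅, ?_, rfl⟩)
  · rintro d ⟨C, _, rfl⟩
    exact lowerDensity_le_one _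
  · refine ComputablePred.computable_iff.2 ⟨fun _ => false, Computable.const false, ?_⟩
    funext n; simp

open Pool.Agent.Results.MP_65fbb9_lc.Coincidence in
theorem not_DSim {X : Set ℕ} (hX : Gamma X = 1 / 2) :
    X ∉ MP_65fbb9_lc.PolynomialExponents.DSim 0 := by
  rintro ⟨x, hx, hS⟩
  set Y : Set ℕ := {n | x n = true} with hY
  have hYX : TLe Y X := by
    have h1 : ComputableIn {MP_65fbb9_lc.PolynomialExponents.orc X}
        (fun n => bif x n then 1 else 0 : ℕ → ℕ) :=
      ci_compC (f := fun b : Bool => bif b then 1 else 0)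
        (Computable.cond Computable.id (Computable.const 1) (Computable.const 0)) hx
    have e : (fun n => bif x n then 1 else 0 : ℕ → ℕ) = chi Y := by
      funext n
      unfold chi
      rw [hY]
      cases hxn : x n <;> simp [hxn]
    rw [e] at h1
    exact h1
  have h0 : gamma Y ≤ 0 := by
    refine csSup_le ⟨_, ∅, ?_, rfl⟩ ?_
    · refine ComputablePred.computable_iff.2 ⟨fun _ => false, Computable.const false, ?_⟩
      funext n; simp
    · rintro d ⟨C, hC, rfl⟩
      obtain ⟨S, hSc, hSe⟩ := ComputablePred.computable_iff.1 hC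
      have h1 := hS S hSc
      have h2 : lowerDensity (agreeSet Y C) = MP_65fbb9_lc.PolynomialExponents.lowerDens x S := by
        unfold lowerDensity MP_65fbb9_lc.PolynomialExponents.lowerDens
          MP_65fbb9_lc.PolynomialExponents.agree
        congr 1
        funext n
        rw [ncard_eq (fun i => x i = S i)]
        intro i
        have h3 : i ∈ C ↔ S i = true := by
          have := congrFun hSe i
          simpa using this
        unfold agreeSet
        rw [Set.mem_ofPred_eq, h3, hY, Set.mem_ofPred_eq]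
        cases x i <;> cases S i <;> simp
      rw [h2]; exact h1
  have h3 : Gamma X ≤ gamma Y := by
    refine csInf_le ⟨0, ?_⟩ ⟨Y, hYX, rfl⟩
    rintro d ⟨Z, _, rfl⟩
    exact gamma_nonneg Z
  rw [hX] at h3
  linarith

theorem exists_evader {X : Set ℕ} (hX : Gamma X = 1 / 2) (F : ℕ → ℕ)
    (hF : TuringReducible (F : ℕ →. ℕ) (chi X : ℕ →. ℕ)) :
    ∃ ρ : ℕ → ℕ, Computable ρ ∧ (∀ m, ρ m < 2 ^ 2 ^ (Nat.sqrt (Nat.sqrt m) / 4)) ∧
      ∀ᶠ m in atTop, F m ≠ ρ m := by
  have h1 := MP_65fbb9_lc.PolynomialExponents.result.1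
    (fun m => 2 ^ (Nat.sqrt (Nat.sqrt m) / 4)) 5 (by norm_num) ?_ ?_
  · have h2 := not_DSim hX
    rw [← h1] at h2
    by_contra hcon
    push Not at hcon
    refine h2 ⟨F, hF, fun y hy hy2 => ?_⟩
    have := hcon y hy hy2
    simpa using this
  · rw [eventually_atTop]
    refine ⟨1024 ^ 4, fun n hn t ht => Nat.pow_le_pow_right (by norm_num) ?_⟩
    have hW := X43.QE.W_spec n
    unfold X43.QE.W at hW
    set a := Nat.sqrt (Nat.sqrt n) with ha
    have ha1 : 1024 ≤ a := by
      by_contra hc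
      have h3 : (a + 1) ^ 4 ≤ 1024 ^ 4 := Nat.pow_le_pow_left (by omega) 4
      omega
    rw [Nat.le_div_iff_mul_le (by norm_num)]
    by_contra hc
    push Not at hc
    have h4 : (a + 1) ^ 5 ≤ (t * 4) ^ 5 := Nat.pow_le_pow_left hc 5
    have h5 : (t * 4) ^ 5 = 1024 * t ^ 5 := by ring
    have h6 : (a + 1) ^ 5 = (a + 1) * (a + 1) ^ 4 := by ring
    have h7 : 1025 * (a + 1) ^ 4 ≤ (a + 1) * (a + 1) ^ 4 := Nat.mul_le_mul_right _ (by omega)
    omega
  · refine Eventually.of_forall fun n => Nat.pow_le_pow_right (by norm_num) ?_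
    have h3 : Nat.sqrt (Nat.sqrt n) / 4 ≤ Nat.sqrt (Nat.sqrt n) := Nat.div_le_self _ _
    have h4 : Nat.sqrt (Nat.sqrt n) ≤ n := (Nat.sqrt_le_self _).trans (Nat.sqrt_le_self _)
    have h5 : n ≤ n ^ 5 := Nat.le_self_pow (by norm_num) n
    omega

/-- For every `X` with `Γ(X) = 1/2` and every `Y ≤_T X` there is a computable set `A` such that the
lower density of `Y ↔ A` is `1/2`; even the density of `Y ↔ A` exists and is `1/2`. -/
theorem result : ∀ X : Set ℕ, Gamma X = 1 / 2 → ∀ Y : Set ℕ, TLe Y X →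
    ∃ A : Set ℕ, ComputablePred (fun n => n ∈ A) ∧ lowerDensity (agreeSet Y A) = 1 / 2 ∧
      Tendsto (fun n : ℕ => ((agreeSet Y A ∩ Set.Iio n).ncard : ℝ) / n) atTop (𝓝 (1 / 2)) := by
  classical
  intro X hX Y hYX
  obtain ⟨A, hA, hlim⟩ := X43.GA.main (chi Y) fun F hF => exists_evader hX F (hF.trans hYX)
  have hC : ComputablePred (fun n => n ∈ {n | A n = true}) :=
    ComputablePred.computable_iff.2 ⟨A, hA, rfl⟩
  have hT : Tendsto (fun n : ℕ => ((agreeSet Y {n | A n = true} ∩ Set.Iio n).ncard : ℝ) / n)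
      atTop (𝓝 (1 / 2)) := by
    refine hlim.congr fun n => ?_
    congr 2
    unfold X43.GA.ag
    rw [Nat.count_eq_card_filter_range, ncard_eq (fun i => A i = decide (chi Y i = 1))]
    intro i
    unfold agreeSet
    have h1 : chi Y i = 1 ↔ i ∈ Y := by unfold chi; by_cases h : i ∈ Y <;> simp [h]
    rw [Set.mem_ofPred_eq, Set.mem_ofPred_eq, ← h1]
    by_cases h2 : chi Y i = 1 <;> cases A i <;> simp [h2]
  exact ⟨{n | A n = true}, hC, hT.liminf_eq, hT⟩

end Pool.Agent.Results.MP_f1effe_lc.DensityHalf
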